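import Pool.Agent.H410Z.RL.Lab

set_option autoImplicit false

namespace Pool.Agent.Results.MP_a8ba19_gt.NotSubmetrizable

/-- There is a regular (T3) rectifiable space of countable pseudocharacter which admits no coarser
metrizable topology. -/
theorem result : ∃ (G : Type) (τ : TopologicalSpace G), T3Space G ∧
    (∃ (φ : (G × G) ≃ₜ (G × G)) (e : G),
      (∀ p : G × G, (φ p).1 = p.1) ∧ ∀ x : G, φ (x, x) = (x, e)) ∧
    (∀ x : G, ∃ U : ℕ → Set G, (∀ n, IsOpen (U n)) ∧ ⋂ n, U n = {x}) ∧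
    ¬ ∃ σ : TopologicalSpace G, (∀ U : Set G, @IsOpen G σ U → @IsOpen G τ U) ∧
      @TopologicalSpace.MetrizableSpace G σ := by
  obtain ⟨X, τ, h1, h2, h3, h4, -⟩ := Pool.Agent.H410Z.RL.example_space
  refine ⟨X, τ, h1, h2, h3, ?_⟩
  rintro ⟨σ, g1, g2⟩
  exact @h4 X σ g2 id (@Continuous.mk X X τ σ id fun U hU => g1 U hU) Function.injective_id

end Pool.Agent.Results.MP_a8ba19_gt.NotSubmetrizable
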