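import Pool.Agent.H410Z.RL.Lab

set_option autoImplicit false

namespace Pool.Agent.Results.MP_a8ba19_gt.NotTychonoff

/-- There is a regular (T3) rectifiable space of countable pseudocharacter which is not
completely regular. -/
theorem result : ∃ (G : Type) (_ : TopologicalSpace G), T3Space G ∧
    (∃ (φ : (G × G) ≃ₜ (G × G)) (e : G),
      (∀ p : G × G, (φ p).1 = p.1) ∧ ∀ x : G, φ (x, x) = (x, e)) ∧
    (∀ x : G, ∃ U : ℕ → Set G, (∀ n, IsOpen (U n)) ∧ ⋂ n, U n = {x}) ∧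
    ¬ CompletelyRegularSpace G := by
  obtain ⟨X, τ, h1, h2, h3, -, h5⟩ := Pool.Agent.H410Z.RL.example_space
  exact ⟨X, τ, h1, h2, h3, h5⟩

end Pool.Agent.Results.MP_a8ba19_gt.NotTychonoff
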